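import Pool.Agent.X112.CE.Basic

set_option autoImplicit false

noncomputable section

namespace X112.CE

open Filter Topology
open scoped ENNReal

variable {𝕂 : Type} [RCLike 𝕂] {p : ℝ≥0∞} [hp : Fact (1 ≤ p)] {V : Weights}

/-- the set of sequences small on `J` is a basic neighbourhood -/
theorem basic_J (J : Set ℕ) (hJ : ∀ m, ∃ ε > 0, ∀ t ∈ J, ε ≤ V.v m t) (δ : ℝ) (hδ : 0 < δ) :
    IsBasic {a : K 𝕂 p V | ∀ t ∈ J, ‖a.1 t‖ ≤ δ} := by
  refine ⟨?_, ?_⟩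
  · intro a ha b hb s t hst j hj
    show ‖s * a.1 j + t * b.1 j‖ ≤ δ
    have h1 := ha j hj
    have h2 := hb j hj
    calc ‖s * a.1 j + t * b.1 j‖ ≤ ‖s * a.1 j‖ + ‖t * b.1 j‖ := norm_add_le _ _
      _ = ‖s‖ * ‖a.1 j‖ + ‖t‖ * ‖b.1 j‖ := by rw [norm_mul, norm_mul]
      _ ≤ ‖s‖ * δ + ‖t‖ * δ := by gcongr
      _ ≤ δ := by nlinarith
  · intro m
    obtain ⟨ε, hε, h⟩ := hJ m
    refine ⟨ε * δ, by positivity, fun x hx hx' t ht => ?_⟩
    have h1 := coord_le (V.v m) x.1 hx.1 t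
    rw [norm_wt, abs_of_pos (V.pos _ _)] at h1
    have h2 := h t ht
    by_contra h3
    push Not at h3
    have : ε * δ ≤ V.v m t * ‖x.1 t‖ := mul_le_mul h2 h3.le hδ.le (V.pos _ _).le
    linarith

theorem open_J (J : Set ℕ) (hJ : ∀ m, ∃ ε > 0, ∀ t ∈ J, ε ≤ V.v m t) (c : 𝕂) (R : ℝ) :
    IsOpen[kTop 𝕂 p V] {x : K 𝕂 p V | ∃ r < R, ∀ t ∈ J, ‖x.1 t - c‖ ≤ r} := by
  intro x hx
  obtain ⟨r, hr, h⟩ := hx
  refine ⟨_, basic_J J hJ ((R - r) / 2) (by linarith), fun a ha => ⟨(R + r) / 2, by linarith,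
    fun t ht => ?_⟩⟩
  have h1 := h t ht
  have h2 := ha t ht
  have h3 : (x + a).1 t - c = (x.1 t - c) + a.1 t := by
    show x.1 t + a.1 t - c = _
    ring
  rw [h3]
  refine (norm_add_le _ _).trans ?_
  linarith

/-- iterating the continuity of the shift -/
theorem shift_iter (V : Weights) (M m : ℕ) : ∃ n, m ≤ n ∧ ∃ c : ℝ, 0 < c ∧ ∀ j, ∀ i ≤ M,
    c * V.v n j ≤ V.v m (j + i) := by
  induction M generalizing m with
  | zero =>
    refine ⟨m, le_rfl, 1, one_pos, fun j i hi => ?_⟩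
    have : i = 0 := by omega
    rw [this]
    simp
  | succ M ih =>
    obtain ⟨n1, h1, C, hC⟩ := V.shift m
    obtain ⟨n, h2, c, hc, h3⟩ := ih n1
    have hC0 : 0 < C := by
      have := hC 0
      have h4 := V.pos n1 0
      have h5 := V.pos m 1
      by_contra h
      push Not at h
      simp only [zero_add] at this
      nlinarith
    refine ⟨n, h1.trans h2, min 1 (c / C), lt_min one_pos (div_pos hc hC0), fun j i hi => ?_⟩
    have hv := V.pos n j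
    rcases i with _ | i
    · calc min 1 (c / C) * V.v n j ≤ 1 * V.v n j := by gcongr; exact min_le_left _ _
        _ ≤ V.v m (j + 0) := by rw [one_mul]; exact v_anti V (h1.trans h2) j
    · have h4 := h3 j i (by omega)
      have h5 := hC (j + i)
      calc min 1 (c / C) * V.v n j ≤ c / C * V.v n j := by gcongr; exact min_le_right _ _
        _ = (c * V.v n j) / C := by ring
        _ ≤ (C * V.v m (j + i + 1)) / C := div_le_div_of_nonneg_right (h4.trans h5) hC0.le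
        _ = V.v m (j + (i + 1)) := by
          rw [mul_div_assoc, mul_div_cancel₀ _ hC0.ne']
          rfl

theorem ergodic_thick (hS : ∀ m, ∃ n, m ≤ n ∧ Tendsto (fun j => V.v n j / V.v m j) atTop (𝓝 0))
    (hE : TopErgodic 𝕂 p V) :
    ∃ m, ∀ η > 0, ∀ L N : ℕ, ∃ j, N ≤ j ∧ ∀ i ≤ L, V.v m (j + i) < η := by
  by_contra hcon
  push Not at hcon
  -- intervals
  have key : ∀ M : ℕ, ∃ j : ℕ, ∀ i ≤ M, 1 ≤ V.v M (j + i) := by
    intro M
    obtain ⟨n1, h1, h2⟩ := hS M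
    obtain ⟨n, h3, c, hc, h4⟩ := shift_iter V M n1
    obtain ⟨η, hη, L, N, h5⟩ := hcon n
    obtain ⟨R, hR⟩ := (Metric.tendsto_atTop.1 h2) (c * η) (by positivity)
    obtain ⟨i, hi, h6⟩ := h5 (max N R) (le_max_left _ _)
    refine ⟨max N R + i, fun t ht => ?_⟩
    have h7 := h4 (max N R + i) t ht
    have h8 := hR (max N R + i + t) (by have := le_max_right N R; omega)
    rw [Real.dist_0_eq_abs, abs_of_pos (div_pos (V.pos _ _) (V.pos _ _)),
      div_lt_iff₀ (V.pos _ _)] at h8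
    have h9 : c * η ≤ V.v n1 (max N R + i + t) := le_trans (by gcongr) h7
    have h10 : 0 < c * η := by positivity
    nlinarith
  choose j hj using key
  let J : Set ℕ := {t | ∃ M, ∃ i ≤ M, t = j M + i}
  have hJ : ∀ m, ∃ ε > 0, ∀ t ∈ J, ε ≤ V.v m t := by
    intro m
    have hfin : ∀ k, ∃ ε > 0, ∀ M < k, ∀ i ≤ M, ε ≤ V.v m (j M + i) := by
      intro k
      obtain ⟨x, hx1, hx2⟩ := Finset.exists_min_image (Finset.range (k + 1) ×ˢ Finset.range (k + 1))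
        (fun x => V.v m (j x.1 + x.2)) ⟨(0, 0), by simp⟩
      refine ⟨_, V.pos m (j x.1 + x.2), fun M hM i hi => ?_⟩
      exact hx2 (M, i) (by simp; omega)
    obtain ⟨ε, hε, h⟩ := hfin m
    refine ⟨min ε 1, lt_min hε one_pos, ?_⟩
    rintro t ⟨M, i, hi, rfl⟩
    rcases lt_or_ge M m with hM | hM
    · exact (min_le_left _ _).trans (h M hM i hi)
    · exact (min_le_right _ _).trans ((hj M i hi).trans (v_anti V hM _))
  have hJ0 : ∀ m, ∃ ε > 0, ∀ t ∈ ({0} : Set ℕ), ε ≤ V.v m t := fun m =>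
    ⟨V.v m 0, V.pos m 0, by rintro t rfl; exact le_rfl⟩
  have e0 : (Pi.single 0 1 : ℕ → 𝕂) ∈ KSub 𝕂 p V := by
    refine ⟨0, (of_l1 _ _ _ ?_ le_rfl).1⟩
    refine summable_of_ne_finset_zero (s := {0}) fun b hb => ?_
    have hb' : b ≠ 0 := by simpa using hb
    rw [norm_wt, Pi.single_eq_of_ne hb']
    simp
  obtain ⟨q, hq⟩ := hE _ _ (open_J J hJ 0 (1 / 2)) (open_J {0} hJ0 1 (1 / 2))
    ⟨0, 0, by norm_num, fun t _ => by
      show ‖(0 : 𝕂) - 0‖ ≤ 0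
      simp⟩
    ⟨⟨_, e0⟩, 0, by norm_num, by
      rintro t rfl
      show ‖(Pi.single 0 1 : ℕ → 𝕂) 0 - 1‖ ≤ 0
      simp⟩
  obtain ⟨i, ⟨_, x, ⟨r, hr, hx⟩, r', hr', hx'⟩, h1, h2⟩ := hq (j (q + 1) + 1) (by omega)
  have h3 := hx i ⟨q + 1, i - j (q + 1), by omega, by omega⟩
  have h4 := hx' 0 rfl
  rw [B_iter, add_zero] at h4
  have h5 : ‖(1 : 𝕂)‖ ≤ ‖x.1 i - 0‖ + ‖x.1 i - 1‖ := by
    have : (1 : 𝕂) = (x.1 i - 0) - (x.1 i - 1) := by ring
    calc ‖(1 : 𝕂)‖ = ‖(x.1 i - 0) - (x.1 i - 1)‖ := by rw [← this]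
      _ ≤ _ := norm_sub_le _ _
  rw [norm_one] at h5
  linarith

end X112.CE
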