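import Pool.Agent.X112.CE.Basic

set_option autoImplicit false

noncomputable section

namespace X112.CE

open Filter Topology
open scoped ENNReal

variable {𝕂 : Type} [RCLike 𝕂] {p : ℝ≥0∞} [hp : Fact (1 ≤ p)] {V : Weights}

theorem tendsto_kTop (u : ℕ → K 𝕂 p V) (y : K 𝕂 p V) (m : ℕ)
    (h : ∀ i, InStep p (V.v m) (u i - y).1)
    (hn : Tendsto (fun i => stepNorm p (V.v m) (u i - y).1) atTop (𝓝 0)) :
    Tendsto u atTop (@nhds _ (kTop 𝕂 p V) y) := by
  let _ : TopologicalSpace (K 𝕂 p V) := kTop 𝕂 p V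
  refine tendsto_nhds.2 fun U hU hy => ?_
  obtain ⟨A, hA, hA'⟩ := hU y hy
  obtain ⟨ε, hε, h2⟩ := hA.2 m
  filter_upwards [hn.eventually (gt_mem_nhds hε)] with i hi
  have := hA' _ (h2 (u i - y) (h i) hi)
  rw [add_sub_cancel] at this
  exact this

/-- lists of naturals -/
def dl (a : ℕ) : List ℕ := (Encodable.decode a : Option (List ℕ)).getD []

/-- countable family of finitely supported sequences -/
def d (𝕂 : Type) [RCLike 𝕂] (a : ℕ) (j : ℕ) : 𝕂 :=
  ((dl a)[j]?).elim 0 (TopologicalSpace.denseSeq 𝕂)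

theorem d_zero (a j : ℕ) (h : (dl a).length ≤ j) : d 𝕂 a j = 0 := by
  unfold d
  rw [List.getElem?_eq_none h]
  rfl

theorem d_exists (N : ℕ) (g : ℕ → ℕ) : ∃ a, (dl a).length = N ∧
    ∀ j < N, d 𝕂 a j = TopologicalSpace.denseSeq 𝕂 (g j) := by
  have h : dl (Encodable.encode ((List.range N).map g)) = (List.range N).map g := by
    unfold dl
    rw [Encodable.encodek]
    rfl
  refine ⟨Encodable.encode ((List.range N).map g), ?_, fun j hj => ?_⟩
  · rw [h]; simp
  · unfold d
    rw [h]
    simp [hj]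

theorem fin_supp (w : ℕ → ℝ) (x : ℕ → 𝕂) (N : ℕ) (h : ∀ j, N ≤ j → x j = 0) :
    (Summable fun j => ‖wt w x j‖) ∧ ∑' j, ‖wt w x j‖ = ∑ j ∈ Finset.range N, ‖wt w x j‖ := by
  have h1 : ∀ b ∉ Finset.range N, ‖wt w x b‖ = 0 := by
    intro b hb
    rw [norm_wt, h b (by simpa using hb)]
    simp
  exact ⟨summable_of_ne_finset_zero h1, tsum_eq_sum h1⟩

theorem tail_small (w : ℕ → ℝ) (y : ℕ → 𝕂) (hy : InStep p w y) (δ : ℝ) (hδ : 0 < δ) :
    ∃ N : ℕ, InStep p w (fun j => if j < N then 0 else -y j) ∧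
      stepNorm p w (fun j => if j < N then 0 else -y j) < δ := by
  have hin : ∀ N : ℕ, InStep p w (fun j => if j < N then 0 else -y j) := by
    intro N
    refine hy.cmp hp.out id Function.injective_id 1 fun j => ?_
    rw [norm_wt, norm_wt, one_mul]
    have : ‖(if j < N then 0 else -y j)‖ ≤ ‖y j‖ := by
      split_ifs
      · simp
      · simp
    exact mul_le_mul_of_nonneg_left this (abs_nonneg _)
  rcases eq_or_ne p ∞ with rfl | hpt
  · have h1 := (tendsto_zero_iff_norm_tendsto_zero.1 hy.2)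
    obtain ⟨N, hN⟩ := (Metric.tendsto_atTop.1 h1) (δ / 2) (by positivity)
    refine ⟨N, hin N, ?_⟩
    unfold stepNorm
    rw [if_pos rfl]
    refine lt_of_le_of_lt (Real.iSup_le (fun j => ?_) (by positivity : 0 ≤ δ / 2)) (by linarith)
    rw [norm_wt]
    split_ifs with hj
    · simp
      positivity
    · have := hN j (by omega)
      rw [Real.dist_0_eq_abs, abs_of_nonneg (norm_nonneg _), norm_wt] at this
      rw [norm_neg]
      exact this.le
  · have hp0 : 0 < p.toReal := ENNReal.toReal_pos (by have := hp.out; positivity) hpt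
    have h1 := hy.1.summable hp0
    have h2 := tendsto_sum_nat_add (fun j => ‖wt w y j‖ ^ p.toReal)
    obtain ⟨N, hN⟩ := (Metric.tendsto_atTop.1 h2) ((δ / 2) ^ p.toReal) (by positivity)
    refine ⟨N, hin N, ?_⟩
    have h3 := hN N le_rfl
    rw [Real.dist_0_eq_abs, abs_of_nonneg (tsum_nonneg fun _ => by positivity)] at h3
    have h4 := (hin N).1.summable hp0
    have h5 := h4.sum_add_tsum_nat_add N
    have h6 : ∑ i ∈ Finset.range N, ‖wt w (fun j => if j < N then 0 else -y j) i‖ ^ p.toReal = 0 := by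
      refine Finset.sum_eq_zero fun i hi => ?_
      rw [norm_wt, if_pos (Finset.mem_range.1 hi)]
      simp [hp0.ne']
    have h7 : ∀ i, ‖wt w (fun j => if j < N then 0 else -y j) (i + N)‖ ^ p.toReal =
        ‖wt w y (i + N)‖ ^ p.toReal := by
      intro i
      rw [norm_wt, norm_wt, if_neg (by omega), norm_neg]
    rw [h6, zero_add] at h5
    simp only [h7] at h5
    unfold stepNorm
    rw [if_neg hpt, ← h5]
    calc (∑' k, ‖wt w y (k + N)‖ ^ p.toReal) ^ (1 / p.toReal)
        ≤ ((δ / 2) ^ p.toReal) ^ (1 / p.toReal) := by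
          refine Real.rpow_le_rpow (tsum_nonneg fun _ => by positivity) h3.le (by positivity)
      _ = δ / 2 := by
          rw [← Real.rpow_mul (by positivity), mul_one_div_cancel hp0.ne', Real.rpow_one]
      _ < δ := by linarith

theorem dense_d (w : ℕ → ℝ) (hw : ∀ j, 0 < w j) (y : ℕ → 𝕂) (hy : InStep p w y) (δ : ℝ)
    (hδ : 0 < δ) : ∃ a, InStep p w (d 𝕂 a - y) ∧ stepNorm p w (d 𝕂 a - y) < δ := by
  obtain ⟨N, h1, h2⟩ := tail_small w y hy (δ / 2) (by positivity)
  have h3 : ∀ j, ∃ g : ℕ, ‖TopologicalSpace.denseSeq 𝕂 g - y j‖ < δ / (2 * (N + 1)) / w j := by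
    intro j
    have := (TopologicalSpace.denseRange_denseSeq 𝕂).exists_dist_lt (y j)
      (ε := δ / (2 * (N + 1)) / w j) (by have := hw j; positivity)
    obtain ⟨g, hg⟩ := this
    exact ⟨g, by rwa [dist_comm, dist_eq_norm] at hg⟩
  choose g hg using h3
  obtain ⟨a, ha1, ha2⟩ := d_exists (𝕂 := 𝕂) N g
  let h : ℕ → 𝕂 := fun j => if j < N then d 𝕂 a j - y j else 0
  have e : d 𝕂 a - y = h + (fun j => if j < N then 0 else -y j) := by
    funext j
    show d 𝕂 a j - y j = (if j < N then d 𝕂 a j - y j else 0) + (if j < N then 0 else -y j)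
    split_ifs with hj
    · ring
    · rw [d_zero a j (by omega)]
      ring
  obtain ⟨f1, f2⟩ := fin_supp w h N (fun j hj => by
    show (if j < N then d 𝕂 a j - y j else 0) = 0
    rw [if_neg (by omega)])
  have f3 : ∑' j, ‖wt w h j‖ ≤ N * (δ / (2 * (N + 1))) := by
    rw [f2]
    calc ∑ j ∈ Finset.range N, ‖wt w h j‖ ≤ ∑ j ∈ Finset.range N, δ / (2 * (N + 1)) := by
          refine Finset.sum_le_sum fun j hj => ?_
          have hj' := Finset.mem_range.1 hj
          rw [norm_wt, abs_of_pos (hw j)]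
          show w j * ‖(if j < N then d 𝕂 a j - y j else 0)‖ ≤ _
          rw [if_pos hj', ha2 j hj']
          have := hg j
          rw [lt_div_iff₀ (hw j)] at this
          linarith
      _ = _ := by simp
  have f4 : (N : ℝ) * (δ / (2 * (N + 1))) < δ / 2 := by
    rw [mul_div_assoc', div_lt_div_iff₀ (by positivity) (by positivity)]
    have : (0 : ℝ) ≤ N := Nat.cast_nonneg N
    nlinarith
  obtain ⟨g1, g2⟩ := of_l1 (p := p) w h _ f1 f3
  refine ⟨a, ?_⟩
  rw [e]
  refine ⟨g1.add h1, ?_⟩
  have := stepNorm_add w h _ g1.1 h1.1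
  linarith

theorem exists_x (m : ℕ)
    (hT : ∀ η > 0, ∀ L N : ℕ, ∃ j, N ≤ j ∧ ∀ i ≤ L, V.v m (j + i) < η) :
    ∃ (x : ℕ → 𝕂) (n : ℕ → ℕ), n 0 = 0 ∧ ∀ m', m ≤ m' → ∀ k,
      InStep p (V.v m') (fun i => x (n k + i) - d 𝕂 (Nat.unpair k).1 i) ∧
      stepNorm p (V.v m') (fun i => x (n k + i) - d 𝕂 (Nat.unpair k).1 i) ≤ (1 / 2) ^ k := by
  let yl : ℕ → ℕ → 𝕂 := fun l => d 𝕂 (Nat.unpair l).1
  let ll : ℕ → ℕ := fun l => (dl (Nat.unpair l).1).length
  have hyl : ∀ l i, ll l ≤ i → yl l i = 0 := fun l i hi => d_zero _ _ hi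
  let S : ℕ → ℝ := fun l => ∑' i, ‖yl l i‖
  have hsum : ∀ l, Summable fun i => ‖yl l i‖ := fun l =>
    summable_of_ne_finset_zero (s := Finset.range (ll l)) fun b hb => by
      rw [hyl l b (by simpa using hb), norm_zero]
  have hS0 : ∀ l, 0 ≤ S l := fun l => tsum_nonneg fun _ => norm_nonneg _
  let η : ℕ → ℝ := fun l => (1 / 2) ^ l / (S l + 1)
  have hη0 : ∀ l, 0 < η l := fun l => div_pos (by positivity) (by linarith [hS0 l])
  have hηS : ∀ l, η l * S l ≤ (1 / 2) ^ l := by
    intro l
    show (1 / 2) ^ l / (S l + 1) * S l ≤ (1 / 2) ^ l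
    have h1 := hS0 l
    rw [div_mul_eq_mul_div, div_le_iff₀ (by linarith)]
    have : (0 : ℝ) < (1 / 2) ^ l := by positivity
    nlinarith
  choose Jf hJ1 hJ2 using fun (l b : ℕ) => hT (η (l + 1)) (hη0 _) (b + ll (l + 1)) (ll l + 1)
  let n : ℕ → ℕ := fun l => Nat.rec (motive := fun _ => ℕ) 0 (fun l b => b + Jf l b) l
  have hn : ∀ l, n (l + 1) = n l + Jf l (n l) := fun l => rfl
  have hn1 : ∀ l, n l + ll l + 1 ≤ n (l + 1) := fun l => by
    have := hJ1 l (n l)
    rw [hn]
    omega
  have hmono : Monotone n := monotone_nat_of_le_succ fun l => by have := hn1 l; omega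
  have hnl : ∀ l, l ≤ n l := by
    intro l
    induction l with
    | zero => exact Nat.zero_le _
    | succ l ih => have := hn1 l; omega
  let z : ℕ → ℕ → 𝕂 := fun l t => if n l ≤ t then yl l (t - n l) else 0
  let x : ℕ → 𝕂 := fun t => ∑ l ∈ Finset.range (t + 1), z l t
  refine ⟨x, n, rfl, fun m' hm' k => ?_⟩
  show InStep p (V.v m') (fun i => x (n k + i) - yl k i) ∧
      stepNorm p (V.v m') (fun i => x (n k + i) - yl k i) ≤ (1 / 2) ^ k
  have hcoord : ∀ i, x (n k + i) - yl k i = ∑ l ∈ Finset.Ioo k (n k + i + 1), z l (n k + i) := by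
    intro i
    have h1 : Finset.range (n k + i + 1) = Finset.range k ∪ {k} ∪ Finset.Ioo k (n k + i + 1) := by
      ext l
      have := hnl k
      simp only [Finset.mem_range, Finset.mem_union, Finset.mem_singleton, Finset.mem_Ioo]
      omega
    have h2 : x (n k + i) = ∑ l ∈ Finset.range k, z l (n k + i) + z k (n k + i) +
        ∑ l ∈ Finset.Ioo k (n k + i + 1), z l (n k + i) := by
      show ∑ l ∈ Finset.range (n k + i + 1), z l (n k + i) = _
      rw [h1, Finset.sum_union, Finset.sum_union, Finset.sum_singleton]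
      · rw [Finset.disjoint_singleton_right]
        simp
      · rw [Finset.disjoint_left]
        intro l hl
        simp only [Finset.mem_range, Finset.mem_union, Finset.mem_singleton, Finset.mem_Ioo] at *
        omega
    have h3 : ∑ l ∈ Finset.range k, z l (n k + i) = 0 := by
      refine Finset.sum_eq_zero fun l hl => ?_
      have hl' := Finset.mem_range.1 hl
      have h4 := hn1 l
      have h5 := hmono (show l + 1 ≤ k from hl')
      show (if n l ≤ n k + i then yl l (n k + i - n l) else 0) = 0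
      rw [hyl l _ (by omega)]
      simp
    have h4 : z k (n k + i) = yl k i := by
      show (if n k ≤ n k + i then yl k (n k + i - n k) else 0) = yl k i
      rw [if_pos (Nat.le_add_right _ _), Nat.add_sub_cancel_left]
    rw [h2, h3, h4]
    ring
  have hblock : ∀ l, k < l → ∀ I, ∑ i ∈ Finset.range I, V.v m' i * ‖z l (n k + i)‖ ≤
      (1 / 2) ^ l := by
    intro l hl I
    obtain ⟨l, rfl⟩ : ∃ l', l = l' + 1 := ⟨l - 1, by omega⟩
    set A := n (l + 1) - n k with hA
    have hkn : n k ≤ n (l + 1) := hmono hl.le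
    have hkl : n k ≤ n l := hmono (by omega)
    let g : ℕ → ℝ := fun i => if A ≤ i then η (l + 1) * ‖yl (l + 1) (i - A)‖ else 0
    have hfg : ∀ i, V.v m' i * ‖z (l + 1) (n k + i)‖ ≤ g i := by
      intro i
      show V.v m' i * ‖(if n (l + 1) ≤ n k + i then yl (l + 1) (n k + i - n (l + 1)) else 0)‖ ≤
        (if A ≤ i then η (l + 1) * ‖yl (l + 1) (i - A)‖ else 0)
      by_cases hi : A ≤ i
      · rw [if_pos hi, if_pos (by omega), show n k + i - n (l + 1) = i - A by omega]
        by_cases hi2 : i - A < ll (l + 1)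
        · have h1 := hJ2 l (n l) (n l - n k + (i - A)) (by omega)
          have h2 : Jf l (n l) + (n l - n k + (i - A)) = i := by
            have := hn l
            omega
          rw [h2] at h1
          have h3 := v_anti V hm' i
          gcongr
          linarith
        · rw [hyl (l + 1) _ (by omega)]
          simp
      · rw [if_neg hi, if_neg (by omega)]
        simp
    calc ∑ i ∈ Finset.range I, V.v m' i * ‖z (l + 1) (n k + i)‖
        ≤ ∑ i ∈ Finset.range I, g i := Finset.sum_le_sum fun i _ => hfg i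
      _ ≤ ∑ i ∈ Finset.range (A + I), g i := by
          refine Finset.sum_le_sum_of_subset_of_nonneg
            (Finset.range_mono (Nat.le_add_left _ _)) fun i _ _ => ?_
          show 0 ≤ (if A ≤ i then η (l + 1) * ‖yl (l + 1) (i - A)‖ else 0)
          have := (hη0 (l + 1)).le
          split_ifs
          · positivity
          · exact le_rfl
      _ = ∑ i ∈ Finset.range I, η (l + 1) * ‖yl (l + 1) i‖ := by
          rw [Finset.sum_range_add]
          have h1 : ∑ i ∈ Finset.range A, g i = 0 := Finset.sum_eq_zero fun i hi => by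
            have := Finset.mem_range.1 hi
            show (if A ≤ i then η (l + 1) * ‖yl (l + 1) (i - A)‖ else 0) = 0
            rw [if_neg (by omega)]
          rw [h1, zero_add]
          refine Finset.sum_congr rfl fun i _ => ?_
          show (if A ≤ A + i then η (l + 1) * ‖yl (l + 1) (A + i - A)‖ else 0) = _
          rw [if_pos (Nat.le_add_right _ _), Nat.add_sub_cancel_left]
      _ = η (l + 1) * ∑ i ∈ Finset.range I, ‖yl (l + 1) i‖ := by rw [Finset.mul_sum]
      _ ≤ η (l + 1) * S (l + 1) := by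
          have h1 := (hsum (l + 1)).sum_le_tsum (Finset.range I) fun _ _ => norm_nonneg _
          have := (hη0 (l + 1)).le
          gcongr
      _ ≤ _ := hηS _
  have hpart : ∀ I, ∑ i ∈ Finset.range I, ‖wt (V.v m') (fun i => x (n k + i) - yl k i) i‖ ≤
      (1 / 2) ^ k := by
    intro I
    calc ∑ i ∈ Finset.range I, ‖wt (V.v m') (fun i => x (n k + i) - yl k i) i‖
        ≤ ∑ i ∈ Finset.range I, ∑ l ∈ Finset.Ioo k (n k + I + 1), V.v m' i * ‖z l (n k + i)‖ := by
          refine Finset.sum_le_sum fun i hi => ?_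
          have hi' := Finset.mem_range.1 hi
          rw [norm_wt, hcoord, abs_of_pos (V.pos _ _)]
          calc V.v m' i * ‖∑ l ∈ Finset.Ioo k (n k + i + 1), z l (n k + i)‖
              ≤ V.v m' i * ∑ l ∈ Finset.Ioo k (n k + i + 1), ‖z l (n k + i)‖ := by
                have := (V.pos m' i).le
                gcongr
                exact norm_sum_le _ _
            _ ≤ V.v m' i * ∑ l ∈ Finset.Ioo k (n k + I + 1), ‖z l (n k + i)‖ := by
                have := (V.pos m' i).le
                refine mul_le_mul_of_nonneg_left ?_ this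
                refine Finset.sum_le_sum_of_subset_of_nonneg ?_ fun _ _ _ => norm_nonneg _
                intro l hl
                simp only [Finset.mem_Ioo] at *
                omega
            _ = _ := by rw [Finset.mul_sum]
      _ = ∑ l ∈ Finset.Ioo k (n k + I + 1), ∑ i ∈ Finset.range I, V.v m' i * ‖z l (n k + i)‖ :=
          Finset.sum_comm
      _ ≤ ∑ l ∈ Finset.Ioo k (n k + I + 1), (1 / 2) ^ l :=
          Finset.sum_le_sum fun l hl => hblock l (Finset.mem_Ioo.1 hl).1 I
      _ ≤ (1 / 2) ^ k := by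
          generalize n k + I + 1 = R
          have : ∀ R, ∑ l ∈ Finset.Ioo k (k + 1 + R), ((1 : ℝ) / 2) ^ l ≤
              (1 / 2) ^ k - (1 / 2) ^ (k + R) := by
            intro R
            induction R with
            | zero =>
              have h0 : Finset.Ioo k (k + 1 + 0) = ∅ := by
                ext l
                simp only [Finset.mem_Ioo, Finset.notMem_empty, iff_false]
                omega
              rw [h0]
              simp
            | succ R ih =>
              have h1 : Finset.Ioo k (k + 1 + (R + 1)) = insert (k + 1 + R)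
                  (Finset.Ioo k (k + 1 + R)) := by
                ext l
                simp only [Finset.mem_Ioo, Finset.mem_insert]
                omega
              rw [h1, Finset.sum_insert (by simp)]
              have h2 : ((1 : ℝ) / 2) ^ (k + R) = 2 * (1 / 2) ^ (k + 1 + R) := by ring
              have h3 : ((1 : ℝ) / 2) ^ (k + (R + 1)) = (1 / 2) ^ (k + 1 + R) := by ring
              rw [h3]
              linarith
          have h4 : Finset.Ioo k R ⊆ Finset.Ioo k (k + 1 + R) := by
            intro l hl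
            simp only [Finset.mem_Ioo] at *
            omega
          refine (Finset.sum_le_sum_of_subset_of_nonneg h4 fun _ _ _ => by positivity).trans ?_
          refine (this R).trans ?_
          have : (0 : ℝ) < (1 / 2) ^ (k + R) := by positivity
          linarith
  have hs : Summable fun i => ‖wt (V.v m') (fun i => x (n k + i) - yl k i) i‖ :=
    summable_of_sum_range_le (fun _ => norm_nonneg _) hpart
  exact of_l1 _ _ _ hs (Real.tsum_le_of_sum_range_le (fun _ => norm_nonneg _) hpart)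

theorem seqHyp (m : ℕ)
    (hT : ∀ η > 0, ∀ L N : ℕ, ∃ j, N ≤ j ∧ ∀ i ≤ L, V.v m (j + i) < η) :
    SeqHypercyclic 𝕂 p V := by
  obtain ⟨x, n, hn0, hx⟩ := exists_x (𝕂 := 𝕂) (p := p) m hT
  have hxK : x ∈ KSub 𝕂 p V := by
    refine ⟨m, ?_⟩
    have h1 := (hx m le_rfl 0).1
    obtain ⟨f1, _⟩ := fin_supp (V.v m) (d 𝕂 (Nat.unpair 0).1) (dl (Nat.unpair 0).1).length
      (fun j hj => d_zero _ _ hj)
    have h2 := (of_l1 (p := p) _ _ _ f1 le_rfl).1
    have h3 := h1.add h2
    refine cast ?_ h3
    congr 1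
    funext i
    show x (n 0 + i) - d 𝕂 (Nat.unpair 0).1 i + d 𝕂 (Nat.unpair 0).1 i = x i
    rw [hn0, zero_add]
    ring
  refine ⟨⟨x, hxK⟩, fun y => ?_⟩
  obtain ⟨my, hy⟩ := y.2
  set m' := max m my with hm'
  have hy' : InStep p (V.v m') y.1 := InStep.mono hp.out V (le_max_right _ _) hy
  choose a ha1 ha2 using fun i : ℕ => dense_d (p := p) (V.v m') (V.pos m') y.1 hy'
    (1 / ((i : ℝ) + 1)) (by positivity)
  refine ⟨fun i => n (Nat.pair (a i) i), ?_⟩
  have e : ∀ i, (B^[n (Nat.pair (a i) i)] (⟨x, hxK⟩ : K 𝕂 p V) - y).1 =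
      (fun t => x (n (Nat.pair (a i) i) + t) - d 𝕂 (Nat.unpair (Nat.pair (a i) i)).1 t) +
        (d 𝕂 (a i) - y.1) := by
    intro i
    funext t
    show (B^[n (Nat.pair (a i) i)] (⟨x, hxK⟩ : K 𝕂 p V)).1 t - y.1 t = _
    rw [B_iter]
    simp only [Nat.unpair_pair, Pi.add_apply, Pi.sub_apply]
    ring
  have hu := fun i => hx m' (le_max_left _ _) (Nat.pair (a i) i)
  refine tendsto_kTop _ y m' (fun i => ?_) ?_
  · rw [e i]
    exact (hu i).1.add (ha1 i)
  · refine squeeze_zero (fun i => stepNorm_nonneg _ _) (g := fun i : ℕ => (1 / 2 : ℝ) ^ i +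
      1 / ((i : ℝ) + 1)) (fun i => ?_) ?_
    · rw [e i]
      refine (stepNorm_add _ _ _ (hu i).1.1 (ha1 i).1).trans ?_
      have h1 := (hu i).2
      have h2 : ((1 : ℝ) / 2) ^ (Nat.pair (a i) i) ≤ (1 / 2) ^ i :=
        pow_le_pow_of_le_one (by norm_num) (by norm_num) (Nat.right_le_pair _ _)
      have h3 := ha2 i
      linarith
    · have h1 : Tendsto (fun i : ℕ => (1 / 2 : ℝ) ^ i) atTop (𝓝 0) :=
        tendsto_pow_atTop_nhds_zero_of_lt_one (by norm_num) (by norm_num)
      have h2 := tendsto_one_div_add_atTop_nhds_zero_nat (𝕜 := ℝ)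
      simpa using h1.add h2

end X112.CE
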