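import Pool.Agent.X112.CE.Nuc2

set_option autoImplicit false

noncomputable section

namespace X112.CE

open Filter Topology
open scoped ENNReal

variable {𝕂 : Type} [RCLike 𝕂] {p : ℝ≥0∞} [hp : Fact (1 ≤ p)] {V : Weights}

theorem W_step (W : ℕ → ℝ) (hW0 : ∀ j, 0 ≤ W j)
    (hW : ∀ n, ∃ C : ℝ, 0 ≤ C ∧ ∀ j, W j ≤ C * V.v n j) (x : K 𝕂 p V) : InStep p W x.1 := by
  obtain ⟨n, hn⟩ := x.2
  obtain ⟨C, hC, h⟩ := hW n
  refine hn.cmp hp.out id Function.injective_id C fun j => ?_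
  rw [norm_wt, norm_wt, abs_of_nonneg (hW0 j), abs_of_pos (V.pos _ _), ← mul_assoc]
  exact mul_le_mul_of_nonneg_right (h j) (norm_nonneg _)

/-- the seminorm `‖(W_j x_j)‖_p` -/
def PW (W : ℕ → ℝ) (hW0 : ∀ j, 0 ≤ W j)
    (hW : ∀ n, ∃ C : ℝ, 0 ≤ C ∧ ∀ j, W j ≤ C * V.v n j) : Seminorm 𝕂 (K 𝕂 p V) :=
  Seminorm.of (fun x => stepNorm p W x.1)
    (fun x y => stepNorm_add _ _ _ (W_step W hW0 hW x).1 (W_step W hW0 hW y).1)
    (fun _ x => stepNorm_smul _ _ _ (W_step W hW0 hW x).1)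

theorem PW_cont (W : ℕ → ℝ) (hW0 : ∀ j, 0 ≤ W j)
    (hW : ∀ n, ∃ C : ℝ, 0 ≤ C ∧ ∀ j, W j ≤ C * V.v n j) :
    Continuous[kTop 𝕂 p V, inferInstance] (PW (𝕂 := 𝕂) (p := p) W hW0 hW) := by
  refine cont_of_bound _ fun n => ?_
  obtain ⟨C, hC, h⟩ := hW n
  refine ⟨C, fun x hx => ?_⟩
  refine stepNorm_le_mul (V.v n) W x.1 C hC (fun j => ?_) hx.1 (W_step W hW0 hW x).1
  rw [norm_wt, norm_wt, abs_of_nonneg (hW0 j), abs_of_pos (V.pos _ _), ← mul_assoc]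
  exact mul_le_mul_of_nonneg_right (h j) (norm_nonneg _)

theorem key_exp (hN : NuclearK 𝕂 p V) (m : ℕ) :
    ∃ β : ℝ, β < 1 ∧ ∀ W : ℕ → ℝ, (∀ j, 0 ≤ W j) →
      (∀ n, ∃ C : ℝ, 0 ≤ C ∧ ∀ j, W j ≤ C * V.v n j) →
      ∃ C' : ℝ, ∀ (F : Finset ℕ) (δ' : ℝ), (∀ j ∈ F, δ' * V.v m j ≤ W j) →
        F.card * δ' ≤ C' * (F.card : ℝ) ^ β := by
  by_cases hp1 : p = 1
  · refine ⟨1 / 2, by norm_num, fun W hW0 hW => ?_⟩
    obtain ⟨Q0, ⟨hQa, hQs⟩, hQ, f, c, hc0, hc, hf, hP⟩ := hN (PW (𝕂 := 𝕂) (p := p) W hW0 hW)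
      ⟨fun x y => map_add_le_add _ x y, fun a x => map_smul_eq_mul _ a x⟩
      (PW_cont (𝕂 := 𝕂) (p := p) W hW0 hW)
    let Q : Seminorm 𝕂 (K 𝕂 p V) := Seminorm.of Q0 hQa hQs
    obtain ⟨CQ, hCQ0, hCQ⟩ := bound_of_cont Q hQ m
    refine ⟨CQ * ∑' k, c k, fun F δ' hδ => ?_⟩
    refine keyB m (PW W hW0 hW) Q δ' F (fun a ha => ?_) f c hc0 hc hf hP CQ hCQ0 hCQ
    show F.card * δ' ≤ stepNorm p W (X p V m F a).1
    unfold stepNorm
    have hpt : p ≠ ∞ := by rw [hp1]; norm_num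
    rw [if_neg hpt]
    have hpr : p.toReal = 1 := by rw [hp1]; simp
    rw [hpr]
    simp only [Real.rpow_one, div_one]
    rw [tsum_eq_sum (s := F) (fun b hb => by rw [X_wt, if_neg hb])]
    calc (F.card : ℝ) * δ' = ∑ j ∈ F, δ' := by simp
      _ ≤ _ := by
        refine Finset.sum_le_sum fun j hj => ?_
        rw [X_wt, if_pos hj, ha j, mul_one, abs_of_nonneg (hW0 j), le_div_iff₀ (V.pos _ _)]
        exact hδ j hj
  · refine ⟨1 / p.toReal, ?_, fun W hW0 hW => ?_⟩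
    · rcases eq_or_ne p ∞ with rfl | hpt
      · simp
      · have h1 : 1 < p := lt_of_le_of_ne hp.out (Ne.symm hp1)
        have h2 : 1 < p.toReal := by
          have := (ENNReal.toReal_lt_toReal (by norm_num) hpt).2 h1
          simpa using this
        rw [div_lt_one (by linarith)]
        exact h2
    · obtain ⟨Q0, ⟨hQa, hQs⟩, hQ, f, c, hc0, hc, hf, hP⟩ := hN (PW (𝕂 := 𝕂) (p := p) W hW0 hW)
        ⟨fun x y => map_add_le_add _ x y, fun a x => map_smul_eq_mul _ a x⟩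
        (PW_cont (𝕂 := 𝕂) (p := p) W hW0 hW)
      let Q : Seminorm 𝕂 (K 𝕂 p V) := Seminorm.of Q0 hQa hQs
      obtain ⟨CQ, hCQ0, hCQ⟩ := bound_of_cont Q hQ m
      refine ⟨CQ * ∑' k, c k, fun F δ' hδ => ?_⟩
      refine keyA m (PW W hW0 hW) Q W (fun j δ' hj => ?_) f c hc0 hc hf hP CQ hCQ0 hCQ F δ' hδ
      show δ' ≤ stepNorm p W (uv (𝕂 := 𝕂) p V m j).1
      refine le_trans ?_ (coord_le W _ (W_step W hW0 hW (uv (𝕂 := 𝕂) p V m j)).1 j)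
      rw [norm_wt, abs_of_nonneg (hW0 j)]
      show δ' ≤ W j * ‖(Pi.single j ((V.v m j : 𝕂)⁻¹) : ℕ → 𝕂) j‖
      rw [Pi.single_eq_same, norm_inv, RCLike.norm_ofReal, abs_of_pos (V.pos _ _),
        ← div_eq_mul_inv, le_div_iff₀ (V.pos _ _)]
      exact hj

theorem nuclear_ratio (hN : NuclearK 𝕂 p V) (m : ℕ) :
    ∃ n, m ≤ n ∧ Tendsto (fun j => V.v n j / V.v m j) atTop (𝓝 0) := by
  by_contra hcon
  push Not at hcon
  have h1 : ∀ k, ∃ δ > 0, {j | δ * V.v m j ≤ V.v (m + k) j}.Infinite := by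
    intro k
    have h2 := hcon (m + k) (Nat.le_add_right _ _)
    rw [Metric.tendsto_atTop] at h2
    push Not at h2
    obtain ⟨δ, hδ, h3⟩ := h2
    refine ⟨δ, hδ, ?_⟩
    refine Set.infinite_of_forall_exists_gt fun a => ?_
    obtain ⟨j, hj, h4⟩ := h3 (a + 1)
    refine ⟨j, ?_, by omega⟩
    rw [Real.dist_0_eq_abs, abs_of_pos (div_pos (V.pos _ _) (V.pos _ _)),
      le_div_iff₀ (V.pos _ _)] at h4
    exact h4
  choose δ hδ hinf using h1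
  obtain ⟨β, hβ, hkey⟩ := key_exp hN m
  have hgrow : ∀ k : ℕ, ∃ N : ℕ, 1 ≤ N ∧ (k + 1 : ℝ) * (N : ℝ) ^ β ≤
      ((1 / 2) ^ (k + 1) * δ k) * N := by
    intro k
    have hγ : 0 < (1 / 2) ^ (k + 1) * δ k := mul_pos (by positivity) (hδ k)
    have h2 : Tendsto (fun N : ℕ => (N : ℝ) ^ (1 - β)) atTop atTop :=
      (tendsto_rpow_atTop (by linarith)).comp tendsto_natCast_atTop_atTop
    obtain ⟨N, hN1, hN2⟩ := ((h2.eventually_ge_atTop ((k + 1 : ℝ) / ((1 / 2) ^ (k + 1) * δ k))).and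
      (eventually_ge_atTop 1)).exists
    refine ⟨N, hN2, ?_⟩
    have hN0 : (0 : ℝ) < N := by exact_mod_cast hN2
    rw [div_le_iff₀ hγ] at hN1
    calc (k + 1 : ℝ) * (N : ℝ) ^ β ≤ ((N : ℝ) ^ (1 - β) * ((1 / 2) ^ (k + 1) * δ k)) * (N : ℝ) ^ β := by
          gcongr
      _ = ((1 / 2) ^ (k + 1) * δ k) * ((N : ℝ) ^ (1 - β) * (N : ℝ) ^ β) := by ring
      _ = ((1 / 2) ^ (k + 1) * δ k) * N := by
          rw [← Real.rpow_add hN0, show 1 - β + β = 1 by ring, Real.rpow_one]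
  choose N hN1 hN2 using hgrow
  choose F hF1 hF2 using fun k => (hinf k).exists_subset_card_eq (N k)
  obtain ⟨W, hW0, hW, hWF⟩ := weight V m δ hδ F fun k j hj => hF1 k hj
  obtain ⟨C', hC'⟩ := hkey W hW0 hW
  obtain ⟨k, hk⟩ := exists_nat_gt C'
  have h3 := hC' (F k) _ (hWF k)
  rw [hF2 k] at h3
  have h4 := hN2 k
  have hN0 : (0 : ℝ) < N k := by exact_mod_cast hN1 k
  have h5 : 0 < (N k : ℝ) ^ β := by positivity
  have h6 : (k + 1 : ℝ) * (N k : ℝ) ^ β ≤ C' * (N k : ℝ) ^ β := by linarith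
  have h7 := le_of_mul_le_mul_right h6 h5
  linarith

end X112.CE
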