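import Pool.Agent.X112.CE.Defs

set_option autoImplicit false

noncomputable section

namespace X112.CE

open Filter Topology
open scoped ENNReal

variable {𝕂 : Type} [RCLike 𝕂] {p : ℝ≥0∞} [hp : Fact (1 ≤ p)] {V : Weights}

theorem B_iter (n : ℕ) (x : K 𝕂 p V) (j : ℕ) : (B^[n] x).1 j = x.1 (n + j) := by
  induction n generalizing x with
  | zero => simp
  | succ n ih =>
    rw [Function.iterate_succ_apply, ih]
    show x.1 (n + j + 1) = x.1 (n + 1 + j)
    rw [show n + j + 1 = n + 1 + j by omega]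

/-! ### step norms -/

theorem stepNorm_eq (w : ℕ → ℝ) (x : ℕ → 𝕂) (h : Memℓp (wt w x) p) :
    stepNorm p w x = ‖(⟨wt w x, h⟩ : lp (fun _ : ℕ => 𝕂) p)‖ := by
  unfold stepNorm
  split_ifs with hpt
  · subst hpt
    rw [lp.norm_eq_ciSup]
  · have hp0 : 0 < p.toReal := ENNReal.toReal_pos (by have := hp.out; positivity) hpt
    rw [lp.norm_eq_tsum_rpow hp0]

theorem coord_le (w : ℕ → ℝ) (x : ℕ → 𝕂) (h : Memℓp (wt w x) p) (j : ℕ) :
    ‖wt w x j‖ ≤ stepNorm p w x := by
  rw [stepNorm_eq w x h]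
  exact lp.norm_apply_le_norm (by have := hp.out; positivity) (⟨wt w x, h⟩ : lp (fun _ : ℕ => 𝕂) p) j

theorem stepNorm_add (w : ℕ → ℝ) (x y : ℕ → 𝕂) (hx : Memℓp (wt w x) p) (hy : Memℓp (wt w y) p) :
    stepNorm p w (x + y) ≤ stepNorm p w x + stepNorm p w y := by
  have hxy : Memℓp (wt w (x + y)) p := by rw [wt_add]; exact hx.add hy
  rw [stepNorm_eq w x hx, stepNorm_eq w y hy, stepNorm_eq w _ hxy]
  refine le_trans (le_of_eq ?_) (norm_add_le _ _)
  congr 1
  ext j
  simp only [wt_add]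
  rfl

theorem stepNorm_smul (w : ℕ → ℝ) (c : 𝕂) (x : ℕ → 𝕂) (hx : Memℓp (wt w x) p) :
    stepNorm p w (c • x) = ‖c‖ * stepNorm p w x := by
  have hxy : Memℓp (wt w (c • x)) p := by rw [wt_smul]; exact hx.const_smul c
  rw [stepNorm_eq w x hx, stepNorm_eq w _ hxy, ← lp.norm_const_smul (by have := hp.out; positivity)]
  congr 1
  ext j
  simp [wt_smul]

omit hp in
theorem stepNorm_nonneg (w : ℕ → ℝ) (x : ℕ → 𝕂) : 0 ≤ stepNorm p w x := by
  unfold stepNorm
  split_ifs
  · exact Real.iSup_nonneg fun j => norm_nonneg _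
  · positivity

/-- `ℓ_1` bound -/
theorem of_l1 (w : ℕ → ℝ) (x : ℕ → 𝕂) (S : ℝ) (hs : Summable fun j => ‖wt w x j‖)
    (hS : ∑' j, ‖wt w x j‖ ≤ S) : InStep p w x ∧ stepNorm p w x ≤ S := by
  have h1 : Memℓp (wt w x) 1 := memℓp_gen (by simpa using hs)
  have h2 : Memℓp (wt w x) p := h1.of_exponent_ge hp.out
  have h3 : Tendsto (wt w x) atTop (𝓝 0) := tendsto_zero_iff_norm_tendsto_zero.2 hs.tendsto_atTop_zero
  have hS0 : 0 ≤ S := le_trans (tsum_nonneg fun _ => norm_nonneg _) hS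
  refine ⟨⟨h2, h3⟩, ?_⟩
  rw [stepNorm_eq w x h2]
  have hle : ∀ j, ‖wt w x j‖ ≤ S := fun j =>
    (hs.le_tsum j fun _ _ => norm_nonneg _).trans hS
  rcases eq_or_ne p ∞ with rfl | hpt
  · exact lp.norm_le_of_forall_le hS0 hle
  · have hp0 : 0 < p.toReal := ENNReal.toReal_pos (by have := hp.out; positivity) hpt
    have hp1 : 1 ≤ p.toReal := by
      have := (ENNReal.toReal_le_toReal (by norm_num) hpt).2 hp.out
      simpa using this
    refine lp.norm_le_of_forall_sum_le hp0 hS0 fun s => ?_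
    calc ∑ i ∈ s, ‖wt w x i‖ ^ p.toReal ≤ ∑ i ∈ s, ‖wt w x i‖ * S ^ (p.toReal - 1) := by
          refine Finset.sum_le_sum fun i _ => ?_
          rcases (norm_nonneg (wt w x i)).eq_or_lt with h0 | h0
          · rw [← h0, Real.zero_rpow hp0.ne']
            simp
          · rw [show p.toReal = 1 + (p.toReal - 1) by ring, Real.rpow_add h0, Real.rpow_one,
              show (1 + (p.toReal - 1) - 1) = p.toReal - 1 by ring]
            exact mul_le_mul_of_nonneg_left (Real.rpow_le_rpow h0.le (hle i) (by linarith)) h0.le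
      _ = (∑ i ∈ s, ‖wt w x i‖) * S ^ (p.toReal - 1) := by rw [Finset.sum_mul]
      _ ≤ S * S ^ (p.toReal - 1) := by
          have := (hs.sum_le_tsum s fun _ _ => norm_nonneg _).trans hS
          gcongr
      _ = S ^ p.toReal := by
          rcases hS0.eq_or_lt with h0 | h0
          · rw [← h0, Real.zero_rpow hp0.ne']
            simp
          · conv_rhs => rw [show p.toReal = 1 + (p.toReal - 1) by ring, Real.rpow_add h0,
              Real.rpow_one]

end X112.CE
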