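import Mathlib

set_option autoImplicit false

noncomputable section

namespace X112.CE

open Filter Topology
open scoped ENNReal

/-- A decreasing sequence `V = (v^(m))` of strictly positive weights for which the backward shift
is continuous on the coechelon spaces; `v m j` is the `j`-th entry of `v^(m)`, with `m, j`
counted from `0`. -/
structure Weights where
  v : ℕ → ℕ → ℝ
  pos : ∀ m j, 0 < v m j
  anti : ∀ m j, v (m + 1) j ≤ v m j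
  shift : ∀ m, ∃ n, m ≤ n ∧ ∃ C : ℝ, ∀ j, v n j ≤ C * v m (j + 1)

section
variable {𝕂 : Type} [RCLike 𝕂]

/-- the sequence `(w_j x_j)_j` -/
def wt (w : ℕ → ℝ) (x : ℕ → 𝕂) : ℕ → 𝕂 := fun j => (w j : 𝕂) * x j

/-- membership in the step space: `ℓ_p(w)` for `1 ≤ p < ∞` (where the second condition holds
automatically) and `c_0(w)` for `p = ∞` -/
def InStep (p : ℝ≥0∞) (w : ℕ → ℝ) (x : ℕ → 𝕂) : Prop :=
  Memℓp (wt w x) p ∧ Tendsto (wt w x) atTop (𝓝 0)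

/-- the norm of the step space: the `ℓ_p` norm of `(w_j x_j)_j` (sup norm for `p = ∞`) -/
def stepNorm (p : ℝ≥0∞) (w : ℕ → ℝ) (x : ℕ → 𝕂) : ℝ :=
  if p = ∞ then ⨆ j, ‖wt w x j‖ else (∑' j, ‖wt w x j‖ ^ p.toReal) ^ (1 / p.toReal)

theorem wt_add (w : ℕ → ℝ) (x y : ℕ → 𝕂) : wt w (x + y) = wt w x + wt w y := by
  funext j
  simp [wt, mul_add]

theorem wt_smul (w : ℕ → ℝ) (c : 𝕂) (x : ℕ → 𝕂) : wt w (c • x) = c • wt w x := by
  funext j
  simp [wt]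
  ring

theorem InStep.add {p : ℝ≥0∞} {w : ℕ → ℝ} {x y : ℕ → 𝕂} (hx : InStep p w x)
    (hy : InStep p w y) : InStep p w (x + y) := by
  refine ⟨?_, ?_⟩
  · rw [wt_add]; exact hx.1.add hy.1
  · rw [wt_add]
    have := hx.2.add hy.2
    rw [add_zero] at this
    exact this

theorem InStep.smul {p : ℝ≥0∞} {w : ℕ → ℝ} {x : ℕ → 𝕂} (hx : InStep p w x) (c : 𝕂) :
    InStep p w (c • x) := by
  refine ⟨?_, ?_⟩
  · rw [wt_smul]; exact hx.1.const_smul c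
  · rw [wt_smul]
    have := hx.2.const_smul c
    rw [smul_zero] at this
    exact this

theorem InStep.zero (p : ℝ≥0∞) (w : ℕ → ℝ) : InStep p w (0 : ℕ → 𝕂) := by
  have : wt w (0 : ℕ → 𝕂) = 0 := by funext j; simp [wt]
  refine ⟨?_, ?_⟩
  · rw [this]; exact zero_memℓp
  · rw [this]; exact tendsto_const_nhds

/-- comparison along an injective reindexing -/
theorem InStep.cmp {p : ℝ≥0∞} (hp : 1 ≤ p) {w w' : ℕ → ℝ} {x y : ℕ → 𝕂} (hx : InStep p w x)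
    (σ : ℕ → ℕ) (hσ : Function.Injective σ) (C : ℝ) (h : ∀ j, ‖wt w' y j‖ ≤ C * ‖wt w x (σ j)‖) :
    InStep p w' y := by
  have ht : Tendsto (wt w' y) atTop (𝓝 0) := by
    refine squeeze_zero_norm h ?_
    have h1 : Tendsto σ atTop atTop := hσ.nat_tendsto_atTop
    have h2 := ((hx.2.comp h1).norm).const_mul C
    simpa using h2
  refine ⟨?_, ht⟩
  rcases eq_or_ne p ∞ with rfl | hpt
  · refine memℓp_infty ?_
    obtain ⟨M, hM⟩ := ht.norm.bddAbove_range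
    exact ⟨M, by rintro _ ⟨j, rfl⟩; exact hM ⟨j, rfl⟩⟩
  · have hp0 : 0 < p.toReal := ENNReal.toReal_pos (by positivity) hpt
    refine memℓp_gen ?_
    have h1 := (hx.1.summable hp0).comp_injective hσ
    have h2 := h1.mul_left (|C| ^ p.toReal)
    refine Summable.of_nonneg_of_le (fun j => by positivity) (fun j => ?_) h2
    show ‖wt w' y j‖ ^ p.toReal ≤ |C| ^ p.toReal * ‖wt w x (σ j)‖ ^ p.toReal
    rw [← Real.mul_rpow (abs_nonneg _) (norm_nonneg _)]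
    refine Real.rpow_le_rpow (norm_nonneg _) ?_ hp0.le
    refine (h j).trans ?_
    gcongr
    exact le_abs_self C

theorem v_anti (V : Weights) {m n : ℕ} (h : m ≤ n) (j : ℕ) : V.v n j ≤ V.v m j := by
  induction n, h using Nat.le_induction with
  | base => exact le_rfl
  | succ n _ ih => exact (V.anti n j).trans ih

theorem norm_wt (w : ℕ → ℝ) (x : ℕ → 𝕂) (j : ℕ) : ‖wt w x j‖ = |w j| * ‖x j‖ := by
  simp [wt]

theorem InStep.mono {p : ℝ≥0∞} (hp : 1 ≤ p) (V : Weights) {m n : ℕ} (h : m ≤ n) {x : ℕ → 𝕂}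
    (hx : InStep p (V.v m) x) : InStep p (V.v n) x := by
  refine hx.cmp hp id Function.injective_id 1 fun j => ?_
  rw [norm_wt, norm_wt, one_mul, abs_of_pos (V.pos _ _), abs_of_pos (V.pos _ _)]
  exact mul_le_mul_of_nonneg_right (v_anti V h j) (norm_nonneg _)

end

/-- the Köthe coechelon space `k_p(V)` for `1 ≤ p < ∞` and `k_0(V)` for `p = ∞`, as a space of
sequences: the union of the step spaces -/
def KSub (𝕂 : Type) [RCLike 𝕂] (p : ℝ≥0∞) [hp : Fact (1 ≤ p)] (V : Weights) :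
    Submodule 𝕂 (ℕ → 𝕂) where
  carrier := {x | ∃ m, InStep p (V.v m) x}
  add_mem' := by
    rintro x y ⟨m, hm⟩ ⟨n, hn⟩
    exact ⟨max m n, (hm.mono hp.out V (le_max_left _ _)).add (hn.mono hp.out V (le_max_right _ _))⟩
  zero_mem' := ⟨0, InStep.zero _ _⟩
  smul_mem' := by
    rintro c x ⟨m, hm⟩
    exact ⟨m, hm.smul c⟩

/-- the coechelon space as a type; its elements are the `x` in `KSub 𝕂 p V` -/
def K (𝕂 : Type) [RCLike 𝕂] (p : ℝ≥0∞) [Fact (1 ≤ p)] (V : Weights) : Type := KSub 𝕂 p V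

instance (𝕂 : Type) [RCLike 𝕂] (p : ℝ≥0∞) [Fact (1 ≤ p)] (V : Weights) :
    AddCommGroup (K 𝕂 p V) := Submodule.addCommGroup (KSub 𝕂 p V)

instance (𝕂 : Type) [RCLike 𝕂] (p : ℝ≥0∞) [Fact (1 ≤ p)] (V : Weights) :
    Module 𝕂 (K 𝕂 p V) := Submodule.module (KSub 𝕂 p V)

variable {𝕂 : Type} [RCLike 𝕂] {p : ℝ≥0∞} [hp : Fact (1 ≤ p)] {V : Weights}

/-- `A` is absolutely convex and contains a ball around `0` of each step space: these sets form a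
basis of zero neighbourhoods of the locally convex inductive limit -/
def IsBasic (A : Set (K 𝕂 p V)) : Prop :=
  (∀ a ∈ A, ∀ b ∈ A, ∀ s t : 𝕂, ‖s‖ + ‖t‖ ≤ 1 → s • a + t • b ∈ A) ∧
    ∀ m, ∃ ε > 0, ∀ x : K 𝕂 p V, InStep p (V.v m) x.1 → stepNorm p (V.v m) x.1 < ε → x ∈ A

theorem IsBasic.inter {A B : Set (K 𝕂 p V)} (hA : IsBasic A) (hB : IsBasic B) :
    IsBasic (A ∩ B) := by
  refine ⟨fun a ha b hb s t h => ⟨hA.1 a ha.1 b hb.1 s t h, hB.1 a ha.2 b hb.2 s t h⟩, ?_⟩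
  intro m
  obtain ⟨ε, h1, h2⟩ := hA.2 m
  obtain ⟨δ, h3, h4⟩ := hB.2 m
  exact ⟨min ε δ, lt_min h1 h3, fun x hx hx' =>
    ⟨h2 x hx (hx'.trans_le (min_le_left _ _)), h4 x hx (hx'.trans_le (min_le_right _ _))⟩⟩

/-- the locally convex inductive limit topology of the step spaces -/
@[instance_reducible] def kTop (𝕂 : Type) [RCLike 𝕂] (p : ℝ≥0∞) [Fact (1 ≤ p)] (V : Weights) :
    TopologicalSpace (K 𝕂 p V) where
  IsOpen U := ∀ x ∈ U, ∃ A : Set (K 𝕂 p V), IsBasic A ∧ ∀ a ∈ A, x + a ∈ U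
  isOpen_univ := fun x _ => ⟨Set.univ, ⟨fun _ _ _ _ _ _ _ => trivial, fun _ => ⟨1, one_pos,
    fun _ _ _ => trivial⟩⟩, fun _ _ => trivial⟩
  isOpen_inter := by
    intro U W hU hW x hx
    obtain ⟨A, hA, hA'⟩ := hU x hx.1
    obtain ⟨B, hB, hB'⟩ := hW x hx.2
    exact ⟨A ∩ B, hA.inter hB, fun a ha => ⟨hA' a ha.1, hB' a ha.2⟩⟩
  isOpen_sUnion := by
    intro S hS x hx
    obtain ⟨U, hU, hxU⟩ := hx
    obtain ⟨A, hA, hA'⟩ := hS U hU x hxU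
    exact ⟨A, hA, fun a ha => ⟨U, hU, hA' a ha⟩⟩

/-- the backward shift `(x_1, x_2, x_3, ...) ↦ (x_2, x_3, ...)` on `k_p(V)` -/
def B (x : K 𝕂 p V) : K 𝕂 p V :=
  ⟨fun j => x.1 (j + 1), by
    obtain ⟨m, hm⟩ := x.2
    obtain ⟨n, _, C, hC⟩ := V.shift m
    refine ⟨n, hm.cmp hp.out (fun j => j + 1) (fun a b h => by simpa using h) C fun j => ?_⟩
    rw [norm_wt, norm_wt, abs_of_pos (V.pos _ _), abs_of_pos (V.pos _ _), ← mul_assoc]
    have := hC j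
    gcongr⟩

/-- `N_B(U, W) = {n ≥ 1 : B^n(U) ∩ W ≠ ∅}` -/
def hit (U W : Set (K 𝕂 p V)) : Set ℕ := {n | 1 ≤ n ∧ ∃ x ∈ U, B^[n] x ∈ W}

/-- syndetic sets of positive integers -/
def Syndetic (S : Set ℕ) : Prop := ∃ q : ℕ, ∀ n, 1 ≤ n → ∃ i ∈ S, n ≤ i ∧ i ≤ n + q

/-- the backward shift is topologically ergodic on `k_p(V)` -/
def TopErgodic (𝕂 : Type) [RCLike 𝕂] (p : ℝ≥0∞) [Fact (1 ≤ p)] (V : Weights) : Prop :=
  ∀ U W : Set (K 𝕂 p V), IsOpen[kTop 𝕂 p V] U → IsOpen[kTop 𝕂 p V] W → U.Nonempty →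
    W.Nonempty → Syndetic (hit U W)

/-- the backward shift is sequentially hypercyclic on `k_p(V)`: every point is the limit of a
sequence from one orbit -/
def SeqHypercyclic (𝕂 : Type) [RCLike 𝕂] (p : ℝ≥0∞) [Fact (1 ≤ p)] (V : Weights) : Prop :=
  ∃ x : K 𝕂 p V, ∀ y : K 𝕂 p V, ∃ k : ℕ → ℕ,
    Tendsto (fun i => B^[k i] x) atTop (@nhds _ (kTop 𝕂 p V) y)

/-- `P` is continuous on `k_p(V)` -/
def Cont (P : K 𝕂 p V → ℝ) : Prop := Continuous[kTop 𝕂 p V, inferInstance] P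

/-- `P(x) ≤ ∑_k c_k |f_k(x)|` for all `x`, with `f_k` linear, `|f_k| ≤ Q`, `c_k ≥ 0` and
`∑_k c_k < ∞` -/
def Majorized (P Q : K 𝕂 p V → ℝ) : Prop :=
  ∃ (f : ℕ → (K 𝕂 p V →ₗ[𝕂] 𝕂)) (c : ℕ → ℝ), (∀ k, 0 ≤ c k) ∧ Summable c ∧
    (∀ k x, ‖f k x‖ ≤ Q x) ∧ ∀ x, P x ≤ ∑' k, c k * ‖f k x‖

/-- `P` is a seminorm on `k_p(V)` -/
def IsSemi (P : K 𝕂 p V → ℝ) : Prop :=
  (∀ x y, P (x + y) ≤ P x + P y) ∧ ∀ (a : 𝕂) (x : K 𝕂 p V), P (a • x) = ‖a‖ * P x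

/-- nuclearity of `k_p(V)`, in the form: for every continuous seminorm `P` there are a continuous
seminorm `Q`, linear functionals `f_k` with `|f_k| ≤ Q` and a summable sequence `c_k ≥ 0` with
`P(x) ≤ ∑_k c_k |f_k(x)|` for all `x` -/
def NuclearK (𝕂 : Type) [RCLike 𝕂] (p : ℝ≥0∞) [Fact (1 ≤ p)] (V : Weights) : Prop :=
  ∀ P : K 𝕂 p V → ℝ, IsSemi P → Cont P → ∃ Q : K 𝕂 p V → ℝ, IsSemi Q ∧ Cont Q ∧ Majorized P Q

end X112.CE
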