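import Pool.Agent.X112.CE.Basic

set_option autoImplicit false

noncomputable section

namespace X112.CE

open Filter Topology
open scoped ENNReal

variable {𝕂 : Type} [RCLike 𝕂] {p : ℝ≥0∞} [hp : Fact (1 ≤ p)] {V : Weights}

theorem cont_of_bound (P : Seminorm 𝕂 (K 𝕂 p V))
    (h : ∀ n, ∃ C : ℝ, ∀ x : K 𝕂 p V, InStep p (V.v n) x.1 → P x ≤ C * stepNorm p (V.v n) x.1) :
    Continuous[kTop 𝕂 p V, inferInstance] P := by
  let _ : TopologicalSpace (K 𝕂 p V) := kTop 𝕂 p V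
  refine continuous_def.2 fun O hO => ?_
  intro x hx
  obtain ⟨ε, hε, hball⟩ := Metric.isOpen_iff.1 hO (P x) hx
  refine ⟨{a | P a ≤ ε / 2}, ⟨?_, ?_⟩, ?_⟩
  · intro a ha b hb s t hst
    show P (s • a + t • b) ≤ ε / 2
    have ha' : P a ≤ ε / 2 := ha
    have hb' : P b ≤ ε / 2 := hb
    calc P (s • a + t • b) ≤ P (s • a) + P (t • b) := map_add_le_add P _ _
      _ = ‖s‖ * P a + ‖t‖ * P b := by rw [map_smul_eq_mul, map_smul_eq_mul]
      _ ≤ ‖s‖ * (ε / 2) + ‖t‖ * (ε / 2) := by gcongr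
      _ ≤ ε / 2 := by nlinarith
  · intro n
    obtain ⟨C, hC⟩ := h n
    refine ⟨ε / (2 * (|C| + 1)), by positivity, fun y hy hy' => ?_⟩
    show P y ≤ ε / 2
    have h1 := hC y hy
    have h2 := stepNorm_nonneg (p := p) (V.v n) y.1
    have h3 : C * stepNorm p (V.v n) y.1 ≤ (|C| + 1) * stepNorm p (V.v n) y.1 := by
      have := le_abs_self C
      nlinarith
    rw [lt_div_iff₀ (by positivity)] at hy'
    nlinarith
  · intro a ha
    apply hball
    rw [Metric.mem_ball, Real.dist_eq]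
    have h1 : |P (x + a) - P x| ≤ P (x + a - x) := abs_sub_map_le_sub P _ _
    rw [add_sub_cancel_left] at h1
    exact lt_of_le_of_lt (h1.trans ha) (by linarith)

theorem bound_of_cont (Q : Seminorm 𝕂 (K 𝕂 p V))
    (hQ : Continuous[kTop 𝕂 p V, inferInstance] Q) (m : ℕ) :
    ∃ C : ℝ, 0 ≤ C ∧ ∀ x : K 𝕂 p V, InStep p (V.v m) x.1 → Q x ≤ C * stepNorm p (V.v m) x.1 := by
  have hO : IsOpen[kTop 𝕂 p V] (Q ⁻¹' (Set.Iio 1)) := by
    let _ : TopologicalSpace (K 𝕂 p V) := kTop 𝕂 p V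
    exact isOpen_Iio.preimage hQ
  obtain ⟨A, hA, hA'⟩ := hO 0 (by show Q 0 < 1; rw [map_zero]; exact one_pos)
  obtain ⟨ε, hε, h⟩ := hA.2 m
  refine ⟨2 / ε, by positivity, fun x hx => ?_⟩
  refine le_of_forall_pos_le_add fun η hη => ?_
  set s := stepNorm p (V.v m) x.1 with hsd
  have hs : 0 ≤ s := stepNorm_nonneg _ _
  have hηε : 0 < η * ε := by positivity
  obtain ⟨s', hs'd⟩ : ∃ s', s' = s + η * ε / 2 := ⟨_, rfl⟩
  have hs' : 0 < s' := by rw [hs'd]; positivity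
  obtain ⟨c, hc⟩ : ∃ c : 𝕂, ‖c‖ = ε / (2 * s') :=
    ⟨((ε / (2 * s') : ℝ) : 𝕂), by rw [RCLike.norm_ofReal, abs_of_pos (by positivity)]⟩
  have h1 : InStep p (V.v m) (c • x).1 := hx.smul c
  have h2 : stepNorm p (V.v m) (c • x).1 < ε := by
    show stepNorm p (V.v m) (c • x.1) < ε
    rw [stepNorm_smul _ _ _ hx.1, hc, div_mul_eq_mul_div, div_lt_iff₀ (by positivity)]
    nlinarith
  have h3 := hA' _ (h _ h1 h2)
  rw [zero_add] at h3
  have h4 : Q (c • x) < 1 := h3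
  rw [map_smul_eq_mul, hc, div_mul_eq_mul_div, div_lt_one (by positivity)] at h4
  have h5 : Q x < 2 * s' / ε := by rw [lt_div_iff₀ hε]; linarith
  calc Q x ≤ 2 * s' / ε := h5.le
    _ = 2 / ε * s + η := by rw [hs'd]; field_simp

theorem stepNorm_le_mul (w w' : ℕ → ℝ) (x : ℕ → 𝕂) (C : ℝ) (hC : 0 ≤ C)
    (h : ∀ j, ‖wt w' x j‖ ≤ C * ‖wt w x j‖) (hx : Memℓp (wt w x) p) (hx' : Memℓp (wt w' x) p) :
    stepNorm p w' x ≤ C * stepNorm p w x := by
  have hp0 : p ≠ 0 := by have := hp.out; positivity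
  rw [stepNorm_eq w x hx, stepNorm_eq w' x hx']
  have h1 := lp.norm_const_smul hp0 (c := ((C : ℝ) : 𝕂)) (⟨wt w x, hx⟩ : lp (fun _ : ℕ => 𝕂) p)
  rw [RCLike.norm_ofReal, abs_of_nonneg hC] at h1
  rw [← h1]
  refine lp.norm_mono hp0 fun j => ?_
  show ‖wt w' x j‖ ≤ ‖((C : ℝ) : 𝕂) • wt w x j‖
  rw [norm_smul, RCLike.norm_ofReal, abs_of_nonneg hC]
  exact h j

theorem weight (V : Weights) (m : ℕ) (δ : ℕ → ℝ) (hδ : ∀ k, 0 < δ k) (F : ℕ → Finset ℕ)
    (hF : ∀ k, ∀ j ∈ F k, δ k * V.v m j ≤ V.v (m + k) j) :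
    ∃ W : ℕ → ℝ, (∀ j, 0 ≤ W j) ∧ (∀ n, ∃ C : ℝ, 0 ≤ C ∧ ∀ j, W j ≤ C * V.v n j) ∧
      ∀ k, ∀ j ∈ F k, (1 / 2) ^ (k + 1) * δ k * V.v m j ≤ W j := by
  let t : ℕ → ℕ → ℝ := fun k j => if j ∈ F k then δ k * V.v m j else 0
  have ht0 : ∀ k j, 0 ≤ t k j := by
    intro k j
    show 0 ≤ (if j ∈ F k then δ k * V.v m j else 0)
    have := (V.pos m j).le
    have := (hδ k).le
    split_ifs <;> positivity
  have htb : ∀ i, ∃ C, 0 ≤ C ∧ ∀ k j, t k j ≤ C * V.v (m + i) j := by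
    intro i
    have hnn : ∀ k j, 0 ≤ δ k * V.v m j / V.v (m + i) j := fun k j => by
      have := (V.pos m j).le
      have := (V.pos (m + i) j).le
      have := (hδ k).le
      positivity
    have hS0 : 0 ≤ ∑ k ∈ Finset.range i, ∑ j ∈ F k, δ k * V.v m j / V.v (m + i) j :=
      Finset.sum_nonneg fun k _ => Finset.sum_nonneg fun j _ => hnn k j
    refine ⟨1 + ∑ k ∈ Finset.range i, ∑ j ∈ F k, δ k * V.v m j / V.v (m + i) j,
      by linarith, fun k j => ?_⟩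
    show (if j ∈ F k then δ k * V.v m j else 0) ≤ _
    have hv := V.pos (m + i) j
    split_ifs with hj
    · rcases lt_or_ge k i with h | h
      · have h1 : δ k * V.v m j / V.v (m + i) j ≤ ∑ j ∈ F k, δ k * V.v m j / V.v (m + i) j :=
          Finset.single_le_sum (f := fun j => δ k * V.v m j / V.v (m + i) j)
            (fun j _ => hnn k j) hj
        have h2 : ∑ j ∈ F k, δ k * V.v m j / V.v (m + i) j ≤
            ∑ k ∈ Finset.range i, ∑ j ∈ F k, δ k * V.v m j / V.v (m + i) j :=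
          Finset.single_le_sum (f := fun k => ∑ j ∈ F k, δ k * V.v m j / V.v (m + i) j)
            (fun k _ => Finset.sum_nonneg fun j _ => hnn k j) (Finset.mem_range.2 h)
        calc δ k * V.v m j = (δ k * V.v m j / V.v (m + i) j) * V.v (m + i) j := by field_simp
          _ ≤ _ := mul_le_mul_of_nonneg_right (by linarith) hv.le
      · calc δ k * V.v m j ≤ V.v (m + k) j := hF k j hj
          _ ≤ V.v (m + i) j := v_anti V (by omega) j
          _ ≤ _ := by nlinarith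
    · positivity
  have hgeo : HasSum (fun k : ℕ => ((1 : ℝ) / 2) ^ (k + 1)) 1 := by
    have h := hasSum_geometric_two.mul_left ((1 : ℝ) / 2)
    have e : (fun k : ℕ => ((1 : ℝ) / 2) ^ (k + 1)) = fun k => (1 / 2) * (1 / 2) ^ k := by
      funext k
      ring
    rw [e]
    have h2 : (1 : ℝ) / 2 * 2 = 1 := by norm_num
    rw [h2] at h
    exact h
  have hsum : ∀ j, Summable fun k => ((1 : ℝ) / 2) ^ (k + 1) * t k j := by
    intro j
    obtain ⟨C, hC, h⟩ := htb 0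
    refine Summable.of_nonneg_of_le (fun k => mul_nonneg (by positivity) (ht0 k j)) (fun k => ?_)
      (hgeo.summable.mul_right (C * V.v (m + 0) j))
    exact mul_le_mul_of_nonneg_left (h k j) (by positivity)
  refine ⟨fun j => ∑' k, ((1 : ℝ) / 2) ^ (k + 1) * t k j,
    fun j => tsum_nonneg fun k => mul_nonneg (by positivity) (ht0 k j), fun n => ?_, ?_⟩
  · obtain ⟨C, hC, h⟩ := htb n
    refine ⟨C, hC, fun j => ?_⟩
    calc ∑' k, ((1 : ℝ) / 2) ^ (k + 1) * t k j ≤ ∑' k : ℕ, ((1 : ℝ) / 2) ^ (k + 1) *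
          (C * V.v (m + n) j) := (hsum j).tsum_le_tsum (fun k => mul_le_mul_of_nonneg_left (h k j)
            (by positivity)) (hgeo.summable.mul_right _)
      _ = C * V.v (m + n) j := by rw [tsum_mul_right, hgeo.tsum_eq, one_mul]
      _ ≤ C * V.v n j := by
          have := v_anti V (show n ≤ m + n by omega) j
          gcongr
  · intro k j hj
    have h1 := (hsum j).le_tsum k fun i _ => mul_nonneg (by positivity) (ht0 i j)
    refine le_trans (le_of_eq ?_) h1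
    show (1 / 2) ^ (k + 1) * δ k * V.v m j = (1 / 2) ^ (k + 1) * (if j ∈ F k then δ k * V.v m j else 0)
    rw [if_pos hj]
    ring

end X112.CE
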