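import Pool.Agent.X112.CE.Nuc1

set_option autoImplicit false

noncomputable section

namespace X112.CE

open Filter Topology
open scoped ENNReal

variable {𝕂 : Type} [RCLike 𝕂] {p : ℝ≥0∞} [hp : Fact (1 ≤ p)] {V : Weights}

theorem single_mem (m j : ℕ) : InStep p (V.v m) (Pi.single j ((V.v m j : 𝕂)⁻¹) : ℕ → 𝕂) := by
  refine (of_l1 _ _ _ ?_ le_rfl).1
  refine summable_of_ne_finset_zero (s := {j}) fun b hb => ?_
  have hb' : b ≠ j := by simpa using hb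
  rw [norm_wt, Pi.single_eq_of_ne hb']
  simp

/-- normalized unit vectors -/
def uv (p : ℝ≥0∞) [Fact (1 ≤ p)] (V : Weights) (m j : ℕ) : K 𝕂 p V :=
  ⟨Pi.single j ((V.v m j : 𝕂)⁻¹), m, single_mem m j⟩

/-- test vectors -/
def X (p : ℝ≥0∞) [Fact (1 ≤ p)] (V : Weights) (m : ℕ) (F : Finset ℕ) (a : ℕ → 𝕂) : K 𝕂 p V :=
  ∑ j ∈ F, a j • uv p V m j

theorem X_coord (m : ℕ) (F : Finset ℕ) (a : ℕ → 𝕂) (i : ℕ) :
    (X p V m F a).1 i = if i ∈ F then a i * (V.v m i : 𝕂)⁻¹ else 0 := by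
  unfold X
  have h1 : (∑ j ∈ F, a j • uv p V m j : K 𝕂 p V).1 = ∑ j ∈ F, a j • (uv (𝕂 := 𝕂) p V m j).1 := by
    exact Submodule.coe_sum _ _ _
  rw [h1, Finset.sum_apply]
  have h2 : ∀ j ∈ F, (a j • (uv (𝕂 := 𝕂) p V m j).1) i =
      if i = j then a i * (V.v m i : 𝕂)⁻¹ else 0 := by
    intro j _
    show a j * (Pi.single j ((V.v m j : 𝕂)⁻¹) : ℕ → 𝕂) i = _
    rw [Pi.single_apply]
    split_ifs with h
    · rw [h]
    · simp
  rw [Finset.sum_congr rfl h2, Finset.sum_ite_eq]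

theorem X_wt (m : ℕ) (F : Finset ℕ) (a : ℕ → 𝕂) (i : ℕ) (w : ℕ → ℝ) :
    ‖wt w (X p V m F a).1 i‖ = if i ∈ F then |w i| / V.v m i * ‖a i‖ else 0 := by
  rw [norm_wt, X_coord]
  split_ifs
  · rw [norm_mul, norm_inv, RCLike.norm_ofReal, abs_of_pos (V.pos _ _)]
    ring
  · simp

theorem X_step (m : ℕ) (F : Finset ℕ) (a : ℕ → 𝕂) : InStep p (V.v m) (X p V m F a).1 := by
  refine (of_l1 _ _ _ ?_ le_rfl).1
  refine summable_of_ne_finset_zero (s := F) fun b hb => ?_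
  rw [X_wt, if_neg hb]

theorem X_norm (m : ℕ) (F : Finset ℕ) (a : ℕ → 𝕂) (ha : ∀ j, ‖a j‖ ≤ 1) :
    stepNorm p (V.v m) (X p V m F a).1 ≤ (F.card : ℝ) ^ (1 / p.toReal) := by
  have hc : ∀ i, ‖wt (V.v m) (X p V m F a).1 i‖ ≤ 1 := by
    intro i
    rw [X_wt]
    have hv := V.pos m i
    split_ifs
    · rw [abs_of_pos hv, div_self hv.ne', one_mul]
      exact ha i
    · exact zero_le_one
  rcases eq_or_ne p ∞ with rfl | hpt
  · unfold stepNorm
    rw [if_pos rfl]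
    simp only [ENNReal.toReal_top, div_zero, Real.rpow_zero]
    exact Real.iSup_le hc zero_le_one
  · have hp0 : 0 < p.toReal := ENNReal.toReal_pos (by have := hp.out; positivity) hpt
    unfold stepNorm
    rw [if_neg hpt]
    refine Real.rpow_le_rpow (tsum_nonneg fun _ => by positivity) ?_ (by positivity)
    rw [tsum_eq_sum (s := F) (fun b hb => by
      rw [X_wt, if_neg hb, Real.zero_rpow hp0.ne'])]
    calc ∑ b ∈ F, ‖wt (V.v m) (X p V m F a).1 b‖ ^ p.toReal ≤ ∑ b ∈ F, (1 : ℝ) :=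
          Finset.sum_le_sum fun b _ => Real.rpow_le_one (norm_nonneg _) (hc b) hp0.le
      _ = F.card := by simp

/-- average of squares over signs -/
theorem signs (F : Finset ℕ) (g : ℕ → 𝕂) (b : 𝕂) :
    ∑ S ∈ F.powerset, ‖b + ∑ j ∈ F, (if j ∈ S then (1 : 𝕂) else -1) * g j‖ ^ 2 =
      2 ^ F.card * (‖b‖ ^ 2 + ∑ j ∈ F, ‖g j‖ ^ 2) := by
  induction F using Finset.induction_on generalizing b with
  | empty => simp
  | insert x F hx ih =>
    rw [Finset.sum_powerset_insert hx]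
    have e1 : ∀ S ∈ F.powerset, ‖b + ∑ j ∈ insert x F, (if j ∈ S then (1 : 𝕂) else -1) * g j‖ ^ 2 =
        ‖(b - g x) + ∑ j ∈ F, (if j ∈ S then (1 : 𝕂) else -1) * g j‖ ^ 2 := by
      intro S hS
      have hxS : x ∉ S := fun h => hx (Finset.mem_powerset.1 hS h)
      rw [Finset.sum_insert hx, if_neg hxS]
      congr 2
      ring
    have e2 : ∀ S ∈ F.powerset, ‖b + ∑ j ∈ insert x F,
        (if j ∈ insert x S then (1 : 𝕂) else -1) * g j‖ ^ 2 =
        ‖(b + g x) + ∑ j ∈ F, (if j ∈ S then (1 : 𝕂) else -1) * g j‖ ^ 2 := by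
      intro S hS
      rw [Finset.sum_insert hx, if_pos (Finset.mem_insert_self _ _)]
      have e3 : ∑ j ∈ F, (if j ∈ insert x S then (1 : 𝕂) else -1) * g j =
          ∑ j ∈ F, (if j ∈ S then (1 : 𝕂) else -1) * g j := by
        refine Finset.sum_congr rfl fun j hj => ?_
        have hjx : j ≠ x := fun h => hx (h ▸ hj)
        have : (j ∈ insert x S) ↔ j ∈ S := by simp [hjx]
        simp only [this]
      rw [e3]
      congr 2
      ring
    rw [Finset.sum_congr rfl e1, Finset.sum_congr rfl e2, ih, ih, Finset.card_insert_of_notMem hx,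
      Finset.sum_insert hx]
    have e4 : ‖b + g x‖ ^ 2 + ‖b - g x‖ ^ 2 = 2 * (‖b‖ ^ 2 + ‖g x‖ ^ 2) := by
      have := parallelogram_law_with_norm 𝕂 b (g x)
      nlinarith
    have e5 : ‖b - g x‖ ^ 2 = 2 * (‖b‖ ^ 2 + ‖g x‖ ^ 2) - ‖b + g x‖ ^ 2 := by linarith
    rw [e5]
    ring

/-- the data of a quasi-nuclear majorization -/
theorem keyA (m : ℕ) (P Q : Seminorm 𝕂 (K 𝕂 p V)) (W : ℕ → ℝ)
    (hPW : ∀ j, ∀ δ' : ℝ, δ' * V.v m j ≤ W j → δ' ≤ P (uv p V m j))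
    (f : ℕ → (K 𝕂 p V →ₗ[𝕂] 𝕂)) (c : ℕ → ℝ) (hc0 : ∀ k, 0 ≤ c k) (hc : Summable c)
    (hf : ∀ k x, ‖f k x‖ ≤ Q x) (hP : ∀ x, P x ≤ ∑' k, c k * ‖f k x‖)
    (CQ : ℝ) (hCQ0 : 0 ≤ CQ)
    (hCQ : ∀ x : K 𝕂 p V, InStep p (V.v m) x.1 → Q x ≤ CQ * stepNorm p (V.v m) x.1)
    (F : Finset ℕ) (δ' : ℝ) (hδ : ∀ j ∈ F, δ' * V.v m j ≤ W j) :
    F.card * δ' ≤ (CQ * ∑' k, c k) * (F.card : ℝ) ^ (1 / p.toReal) := by
  have hsm : ∀ x, Summable fun k => c k * ‖f k x‖ := fun x =>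
    Summable.of_nonneg_of_le (fun k => mul_nonneg (hc0 k) (norm_nonneg _))
      (fun k => mul_le_mul_of_nonneg_left (hf k x) (hc0 k)) (hc.mul_right (Q x))
  have h1 : ∀ k, ∑ j ∈ F, ‖f k (uv p V m j)‖ ≤ CQ * (F.card : ℝ) ^ (1 / p.toReal) := by
    intro k
    let a : ℕ → 𝕂 := fun j => if f k (uv p V m j) = 0 then 0 else
      (‖f k (uv p V m j)‖ : 𝕂) / f k (uv p V m j)
    have ha : ∀ j, ‖a j‖ ≤ 1 := by
      intro j
      show ‖(if f k (uv p V m j) = 0 then (0 : 𝕂) else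
        (‖f k (uv p V m j)‖ : 𝕂) / f k (uv p V m j))‖ ≤ 1
      split_ifs with h
      · simp
      · rw [norm_div, RCLike.norm_ofReal, abs_norm, div_self (norm_ne_zero_iff.2 h)]
    have h2 : f k (X p V m F a) = ((∑ j ∈ F, ‖f k (uv p V m j)‖ : ℝ) : 𝕂) := by
      unfold X
      rw [map_sum]
      push_cast
      refine Finset.sum_congr rfl fun j _ => ?_
      rw [map_smul, smul_eq_mul]
      show (if f k (uv p V m j) = 0 then (0 : 𝕂) else
        (‖f k (uv p V m j)‖ : 𝕂) / f k (uv p V m j)) * f k (uv p V m j) = _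
      split_ifs with h
      · rw [h]; simp
      · field_simp
    have h3 := hf k (X p V m F a)
    rw [h2, RCLike.norm_ofReal, abs_of_nonneg (Finset.sum_nonneg fun _ _ => norm_nonneg _)] at h3
    have h4 := hCQ _ (X_step m F a)
    have h5 := X_norm (p := p) (V := V) m F a ha
    nlinarith
  calc (F.card : ℝ) * δ' = ∑ j ∈ F, δ' := by simp
    _ ≤ ∑ j ∈ F, P (uv p V m j) := Finset.sum_le_sum fun j hj => hPW j δ' (hδ j hj)
    _ ≤ ∑ j ∈ F, ∑' k, c k * ‖f k (uv p V m j)‖ := Finset.sum_le_sum fun j _ => hP _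
    _ = ∑' k, ∑ j ∈ F, c k * ‖f k (uv p V m j)‖ := (Summable.tsum_finsetSum fun j _ => hsm _).symm
    _ ≤ ∑' k, c k * (CQ * (F.card : ℝ) ^ (1 / p.toReal)) := by
        refine Summable.tsum_le_tsum (fun k => ?_) (summable_sum fun j _ => hsm _)
          (hc.mul_right _)
        rw [← Finset.mul_sum]
        exact mul_le_mul_of_nonneg_left (h1 k) (hc0 k)
    _ = _ := by rw [tsum_mul_right]; ring

theorem keyB (m : ℕ) (P Q : Seminorm 𝕂 (K 𝕂 p V)) (δ' : ℝ) (F : Finset ℕ)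
    (hPX : ∀ a : ℕ → 𝕂, (∀ j, ‖a j‖ = 1) → F.card * δ' ≤ P (X p V m F a))
    (f : ℕ → (K 𝕂 p V →ₗ[𝕂] 𝕂)) (c : ℕ → ℝ) (hc0 : ∀ k, 0 ≤ c k) (hc : Summable c)
    (hf : ∀ k x, ‖f k x‖ ≤ Q x) (hP : ∀ x, P x ≤ ∑' k, c k * ‖f k x‖)
    (CQ : ℝ) (hCQ0 : 0 ≤ CQ)
    (hCQ : ∀ x : K 𝕂 p V, InStep p (V.v m) x.1 → Q x ≤ CQ * stepNorm p (V.v m) x.1) :
    F.card * δ' ≤ (CQ * ∑' k, c k) * (F.card : ℝ) ^ (1 / 2 : ℝ) := by
  have hsm : ∀ x, Summable fun k => c k * ‖f k x‖ := fun x =>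
    Summable.of_nonneg_of_le (fun k => mul_nonneg (hc0 k) (norm_nonneg _))
      (fun k => mul_le_mul_of_nonneg_left (hf k x) (hc0 k)) (hc.mul_right (Q x))
  have hu : ∀ k j, ‖f k (uv p V m j)‖ ≤ CQ := by
    intro k j
    have h1 := hf k (uv p V m j)
    have h2 := hCQ (uv p V m j) (single_mem m j)
    have e : uv p V m j = X p V m {j} (fun _ => (1 : 𝕂)) := by
      unfold X
      simp
    have h3 := X_norm (p := p) (V := V) m {j} (fun _ => (1 : 𝕂)) (by simp)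
    rw [← e] at h3
    simp only [Finset.card_singleton, Nat.cast_one, Real.one_rpow] at h3
    nlinarith
  have hlin : ∀ k (S : Finset ℕ), f k (X p V m F (fun j => if j ∈ S then (1 : 𝕂) else -1)) =
      0 + ∑ j ∈ F, (if j ∈ S then (1 : 𝕂) else -1) * f k (uv p V m j) := by
    intro k S
    unfold X
    rw [map_sum, zero_add]
    refine Finset.sum_congr rfl fun j _ => ?_
    rw [map_smul, smul_eq_mul]
  have hN0 : (0 : ℝ) ≤ F.card := Nat.cast_nonneg _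
  have h2N : (0 : ℝ) < 2 ^ F.card := by positivity
  have havg : ∀ k, ∑ S ∈ F.powerset, ‖f k (X p V m F (fun j => if j ∈ S then (1 : 𝕂) else -1))‖ ≤
      2 ^ F.card * (CQ * Real.sqrt F.card) := by
    intro k
    have h1 := signs F (fun j => f k (uv p V m j)) (0 : 𝕂)
    have h2 := Finset.sum_mul_sq_le_sq_mul_sq F.powerset (fun _ => (1 : ℝ))
      (fun S => ‖f k (X p V m F (fun j => if j ∈ S then (1 : 𝕂) else -1))‖)
    simp only [one_mul, one_pow, Finset.sum_const, Finset.card_powerset, nsmul_eq_mul, mul_one] at h2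
    have h3 : ∑ S ∈ F.powerset, ‖f k (X p V m F (fun j => if j ∈ S then (1 : 𝕂) else -1))‖ ^ 2 =
        2 ^ F.card * (∑ j ∈ F, ‖f k (uv p V m j)‖ ^ 2) := by
      simp only [hlin]
      rw [h1]
      simp
    have h4 : ∑ j ∈ F, ‖f k (uv p V m j)‖ ^ 2 ≤ F.card * CQ ^ 2 := by
      calc ∑ j ∈ F, ‖f k (uv p V m j)‖ ^ 2 ≤ ∑ j ∈ F, CQ ^ 2 :=
            Finset.sum_le_sum fun j _ => by
              have := hu k j
              gcongr
        _ = _ := by simp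
    rw [h3] at h2
    refine abs_le_of_sq_le_sq' ?_ (by positivity) |>.2
    calc (∑ S ∈ F.powerset, ‖f k (X p V m F (fun j => if j ∈ S then (1 : 𝕂) else -1))‖) ^ 2
        ≤ ((2 ^ F.card : ℕ) : ℝ) * (2 ^ F.card * ∑ j ∈ F, ‖f k (uv p V m j)‖ ^ 2) := h2
      _ ≤ ((2 ^ F.card : ℕ) : ℝ) * (2 ^ F.card * (F.card * CQ ^ 2)) := by gcongr
      _ = (2 ^ F.card * (CQ * Real.sqrt F.card)) ^ 2 := by
          rw [mul_pow, mul_pow, Real.sq_sqrt hN0]
          push_cast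
          ring
  have h1 : (2 : ℝ) ^ F.card * (F.card * δ') ≤ 2 ^ F.card * ((CQ * ∑' k, c k) *
      (F.card : ℝ) ^ (1 / 2 : ℝ)) := by
    calc (2 : ℝ) ^ F.card * (F.card * δ') = ∑ S ∈ F.powerset, (F.card * δ') := by
          rw [Finset.sum_const, Finset.card_powerset, nsmul_eq_mul]
          push_cast
          ring
      _ ≤ ∑ S ∈ F.powerset, ∑' k, c k *
          ‖f k (X p V m F (fun j => if j ∈ S then (1 : 𝕂) else -1))‖ := by
          refine Finset.sum_le_sum fun S _ => (hPX _ fun j => ?_).trans (hP _)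
          split_ifs <;> simp
      _ = ∑' k, ∑ S ∈ F.powerset, c k *
          ‖f k (X p V m F (fun j => if j ∈ S then (1 : 𝕂) else -1))‖ :=
          (Summable.tsum_finsetSum fun j _ => hsm _).symm
      _ ≤ ∑' k, c k * (2 ^ F.card * (CQ * Real.sqrt F.card)) := by
          refine Summable.tsum_le_tsum (fun k => ?_) (summable_sum fun j _ => hsm _)
            (hc.mul_right _)
          rw [← Finset.mul_sum]
          exact mul_le_mul_of_nonneg_left (havg k) (hc0 k)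
      _ = _ := by rw [tsum_mul_right, Real.sqrt_eq_rpow]; ring
  exact le_of_mul_le_mul_left h1 h2N

end X112.CE
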